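import Mathlib

namespace Pool.Agent.Results.MP_2e7467_an.GlobalStability

open Filter Topology

/-- `x : ℤ → ℝ` (only the values at `n ≥ -k` matter) is a solution of the recurrence with
parameters `k`, `A`, `β 0, ..., β k`, `B 0, ..., B k`. -/
def IsSolution (k : ℕ) (A : ℝ) (β B : ℕ → ℝ) (x : ℤ → ℝ) : Prop :=
  (∀ n : ℤ, -k ≤ n → n ≤ 0 → 0 ≤ x n) ∧
  ∀ n : ℤ, 0 ≤ n → x (n + 1) =
    (∑ i ∈ Finset.range (k + 1), β i * x (n - i)) /
      (A + ∑ i ∈ Finset.range (k + 1), B i * x (n - i))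

/-- The solution `x` has prime period `p`: `p` is the least positive integer with
`x (n + p) = x n` for all `n ≥ -k`. -/
def HasPrimePeriod (k : ℕ) (x : ℤ → ℝ) (p : ℕ) : Prop :=
  IsLeast {q : ℕ | 1 ≤ q ∧ ∀ n : ℤ, -k ≤ n → x (n + q) = x n} p

/-- The zero equilibrium is stable. -/
def Stable (k : ℕ) (A : ℝ) (β B : ℕ → ℝ) : Prop :=
  ∀ ε : ℝ, 0 < ε → ∃ δ : ℝ, 0 < δ ∧ ∀ x : ℤ → ℝ, IsSolution k A β B x →
    (∀ j : ℤ, -k ≤ j → j ≤ 0 → x j < δ) → ∀ n : ℤ, -k ≤ n → x n < ε

/-- The zero equilibrium is globally asymptotically stable. -/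
def GloballyAsymptoticallyStable (k : ℕ) (A : ℝ) (β B : ℕ → ℝ) : Prop :=
  Stable k A β B ∧ ∀ x : ℤ → ℝ, IsSolution k A β B x → Tendsto x atTop (𝓝 0)

/-- The set of shifts `i + 1` with `β i > 0`. -/
def shifts (k : ℕ) (β : ℕ → ℝ) : Set ℕ := {m | ∃ i, i ≤ k ∧ 0 < β i ∧ m = i + 1}

section conv

variable {k : ℕ} {A : ℝ} {β B : ℕ → ℝ} {y : ℕ → ℝ}

lemma conv (hA : 0 < A) (hβ : ∀ i ≤ k, 0 ≤ β i) (hB : ∀ i ≤ k, 0 ≤ B i)
    (hsum : A = ∑ i ∈ Finset.range (k + 1), β i)
    {j : ℕ} (hj : j ≤ k) (hBj : 0 < B j) (hg : Nat.setGcd (shifts k β) ∣ j + 1)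
    (h0 : ∀ m, 0 ≤ y m) {C : ℝ} (hC : ∀ m, y m ≤ C)
    (hrec : ∀ m, k + 1 ≤ m → y m * (A + ∑ i ∈ Finset.range (k + 1), B i * y (m - 1 - i)) =
      ∑ i ∈ Finset.range (k + 1), β i * y (m - 1 - i)) :
    Tendsto y atTop (𝓝 0) := by
  have hb1 : IsBoundedUnder (· ≤ ·) atTop y := isBoundedUnder_of ⟨C, hC⟩
  have hb2 : IsBoundedUnder (· ≥ ·) atTop y := isBoundedUnder_of ⟨0, h0⟩
  obtain ⟨M, hM⟩ : ∃ M, limsup y atTop = M := ⟨_, rfl⟩
  suffices hM0 : M ≤ 0 by
    refine tendsto_of_le_liminf_of_limsup_le ?_ (by rw [hM]; exact hM0) hb1 hb2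
    exact le_liminf_of_le hb1.isCoboundedUnder_ge (Eventually.of_forall h0)
  by_contra hMpos
  rw [not_le] at hMpos
  -- the cluster point
  have hcl : MapClusterPt M atTop y := by
    rw [mapClusterPt_iff_frequently]
    intro s hs
    obtain ⟨ε, hε, hεs⟩ := Metric.mem_nhds_iff.mp hs
    have h1 : ∃ᶠ n in atTop, M - ε < y n :=
      frequently_lt_of_lt_limsup hb2.isCoboundedUnder_le (by rw [hM]; linarith)
    have h2 : ∀ᶠ n in atTop, y n < M + ε :=
      eventually_lt_of_limsup_lt (by rw [hM]; linarith) hb1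
    refine (h1.and_eventually h2).mono ?_
    rintro n ⟨h3, h4⟩
    apply hεs
    rw [Metric.mem_ball, Real.dist_eq, abs_lt]
    constructor <;> linarith
  obtain ⟨U, hU, hUM⟩ := mapClusterPt_iff_ultrafilter.mp hcl
  have hex : ∀ s : ℕ, ∃ a, Tendsto (fun n => y (n - s)) U (𝓝 a) := by
    intro s
    obtain ⟨a, -, ha⟩ := (isCompact_Icc (a := (0 : ℝ)) (b := C)).ultrafilter_le_nhds
      (U.map (fun n => y (n - s))) (by
        rw [le_principal_iff, Ultrafilter.coe_map, Filter.mem_map]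
        filter_upwards with n using ⟨h0 _, hC _⟩)
    exact ⟨a, ha⟩
  choose l hl using hex
  have hl0 : l 0 = M := tendsto_nhds_unique (hl 0) (by simpa using hUM)
  have hlM : ∀ s, l s ≤ M := by
    intro s
    refine le_of_forall_pos_le_add ?_
    intro ε hε
    have h2 : ∀ᶠ n in atTop, y n < M + ε :=
      eventually_lt_of_limsup_lt (by rw [hM]; linarith) hb1
    have h3 : ∀ᶠ n in (U : Filter ℕ), y (n - s) < M + ε :=
      ((tendsto_sub_atTop_nat s).eventually h2).filter_mono hU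
    exact le_of_tendsto (hl s) (h3.mono fun n hn => hn.le)
  have hlnn : ∀ s, 0 ≤ l s := fun s => ge_of_tendsto (hl s) (Eventually.of_forall fun n => h0 _)
  have hlrec : ∀ s, l s * (A + ∑ i ∈ Finset.range (k + 1), B i * l (s + 1 + i)) =
      ∑ i ∈ Finset.range (k + 1), β i * l (s + 1 + i) := by
    intro s
    have e1 : Tendsto (fun n => y (n - s) *
        (A + ∑ i ∈ Finset.range (k + 1), B i * y (n - (s + 1 + i)))) U
        (𝓝 (l s * (A + ∑ i ∈ Finset.range (k + 1), B i * l (s + 1 + i)))) := by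
      refine (hl s).mul (tendsto_const_nhds.add ?_)
      exact tendsto_finsetSum _ fun i _ => (hl _).const_mul _
    have e2 : Tendsto (fun n => ∑ i ∈ Finset.range (k + 1), β i * y (n - (s + 1 + i))) U
        (𝓝 (∑ i ∈ Finset.range (k + 1), β i * l (s + 1 + i))) :=
      tendsto_finsetSum _ fun i _ => (hl _).const_mul _
    refine tendsto_nhds_unique_of_eventuallyEq e1 e2 ?_
    have h3 : ∀ᶠ n in (U : Filter ℕ), k + 1 + s ≤ n := (eventually_ge_atTop _).filter_mono hU
    filter_upwards [h3] with n hn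
    have h4 := hrec (n - s) (by omega)
    have h5 : ∀ i, n - s - 1 - i = n - (s + 1 + i) := by intro i; omega
    simpa only [h5] using h4
  -- the set where the limit is maximal
  have hstep : ∀ s, l s = M → (∀ i ≤ k, 0 < β i → l (s + 1 + i) = M) ∧
      (∀ i ≤ k, 0 < B i → l (s + 1 + i) = 0) := by
    intro s hs
    have hr := hlrec s
    rw [hs] at hr
    have hAM : A * M = ∑ i ∈ Finset.range (k + 1), β i * M := by rw [hsum, Finset.sum_mul]
    have hid : M * ∑ i ∈ Finset.range (k + 1), B i * l (s + 1 + i) +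
        ∑ i ∈ Finset.range (k + 1), β i * (M - l (s + 1 + i)) = 0 := by
      have : ∑ i ∈ Finset.range (k + 1), β i * (M - l (s + 1 + i)) =
          ∑ i ∈ Finset.range (k + 1), β i * M -
            ∑ i ∈ Finset.range (k + 1), β i * l (s + 1 + i) := by
        rw [← Finset.sum_sub_distrib]; exact Finset.sum_congr rfl fun i _ => by ring
      rw [this, ← hAM, ← hr]; ring
    have hn1 : ∀ i ∈ Finset.range (k + 1), 0 ≤ B i * l (s + 1 + i) := fun i hi =>
      mul_nonneg (hB i (by simpa [Nat.lt_succ_iff] using hi)) (hlnn _)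
    have hn2 : ∀ i ∈ Finset.range (k + 1), 0 ≤ β i * (M - l (s + 1 + i)) := fun i hi =>
      mul_nonneg (hβ i (by simpa [Nat.lt_succ_iff] using hi)) (by linarith [hlM (s + 1 + i)])
    have hs1 := Finset.sum_nonneg hn1
    have hs2 := Finset.sum_nonneg hn2
    have hz1 : ∑ i ∈ Finset.range (k + 1), B i * l (s + 1 + i) = 0 := by
      have : M * ∑ i ∈ Finset.range (k + 1), B i * l (s + 1 + i) = 0 := by
        have := mul_nonneg hMpos.le hs1
        linarith
      exact (mul_eq_zero.mp this).resolve_left hMpos.ne'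
    have hz2 : ∑ i ∈ Finset.range (k + 1), β i * (M - l (s + 1 + i)) = 0 := by
      have := mul_nonneg hMpos.le hs1
      linarith
    constructor
    · intro i hi hβi
      have := (Finset.sum_eq_zero_iff_of_nonneg hn2).mp hz2 i (by simp; omega)
      have := (mul_eq_zero.mp this).resolve_left hβi.ne'
      linarith
    · intro i hi hBi
      have := (Finset.sum_eq_zero_iff_of_nonneg hn1).mp hz1 i (by simp; omega)
      exact (mul_eq_zero.mp this).resolve_left hBi.ne'
  have hclos : ∀ m ∈ AddSubmonoid.closure (shifts k β), ∀ t, l t = M → l (t + m) = M := by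
    intro m hm
    induction hm using AddSubmonoid.closure_induction with
    | mem x hx =>
      intro t ht
      obtain ⟨i, hi, hβi, rfl⟩ := hx
      have := (hstep t ht).1 i hi hβi
      rwa [show t + (i + 1) = t + 1 + i by ring]
    | zero => intro t ht; simpa using ht
    | add a b _ _ iha ihb =>
      intro t ht
      rw [← add_assoc]
      exact ihb _ (iha t ht)
  obtain ⟨n₀, hn₀⟩ := Nat.exists_mem_closure_of_ge (s := shifts k β)
  set g := Nat.setGcd (shifts k β) with hgdef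
  -- a large multiple of the gcd
  have hgpos : 0 < g := Nat.pos_of_dvd_of_pos hg (by omega)
  have h1 : g * n₀ ∈ AddSubmonoid.closure (shifts k β) :=
    hn₀ _ (Nat.le_mul_of_pos_left _ hgpos) (dvd_mul_right _ _)
  have h2 : g * n₀ + (j + 1) ∈ AddSubmonoid.closure (shifts k β) :=
    hn₀ _ (le_trans (Nat.le_mul_of_pos_left _ hgpos) (Nat.le_add_right _ _))
      (dvd_add (dvd_mul_right _ _) hg)
  have h3 := hclos _ h1 0 hl0
  have h4 := hclos _ h2 0 hl0
  have h5 := (hstep _ h3).2 j hj hBj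
  rw [show 0 + g * n₀ + 1 + j = 0 + (g * n₀ + (j + 1)) by ring, h4] at h5
  linarith

end conv

section basic

variable {k : ℕ} {A : ℝ} {β B : ℕ → ℝ} {x : ℤ → ℝ}

lemma nonneg (hA : 0 < A) (hβ : ∀ i ≤ k, 0 ≤ β i) (hB : ∀ i ≤ k, 0 ≤ B i)
    (hx : IsSolution k A β B x) : ∀ m : ℕ, 0 ≤ x ((m : ℤ) - k) := by
  intro m
  induction m using Nat.strong_induction_on with
  | _ m ih =>
    rcases le_or_gt m k with h | h
    · exact hx.1 _ (by omega) (by omega)
    · have hr := hx.2 ((m : ℤ) - k - 1) (by omega)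
      rw [sub_add_cancel] at hr
      rw [hr]
      have hs : ∀ i ∈ Finset.range (k + 1), 0 ≤ x ((m : ℤ) - k - 1 - i) := by
        intro i hi
        have hi' : i ≤ k := by simpa [Nat.lt_succ_iff] using hi
        have := ih (m - 1 - i) (by omega)
        rwa [show (((m - 1 - i : ℕ) : ℤ) - k) = (m : ℤ) - k - 1 - i by omega] at this
      refine div_nonneg (Finset.sum_nonneg fun i hi => mul_nonneg (hβ i ?_) (hs i hi))
        (add_nonneg hA.le (Finset.sum_nonneg fun i hi => mul_nonneg (hB i ?_) (hs i hi)))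
      · simpa [Nat.lt_succ_iff] using hi
      · simpa [Nat.lt_succ_iff] using hi

lemma bound (hA : 0 < A) (hβ : ∀ i ≤ k, 0 ≤ β i) (hB : ∀ i ≤ k, 0 ≤ B i)
    (hsum : A = ∑ i ∈ Finset.range (k + 1), β i)
    (hx : IsSolution k A β B x) {C : ℝ} (hC0 : 0 ≤ C) (hC : ∀ n : ℤ, -k ≤ n → n ≤ 0 → x n ≤ C) :
    ∀ m : ℕ, x ((m : ℤ) - k) ≤ C := by
  intro m
  induction m using Nat.strong_induction_on with
  | _ m ih =>
    rcases le_or_gt m k with h | h
    · exact hC _ (by omega) (by omega)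
    · have hr := hx.2 ((m : ℤ) - k - 1) (by omega)
      rw [sub_add_cancel] at hr
      rw [hr]
      have hs0 : ∀ i ∈ Finset.range (k + 1), 0 ≤ x ((m : ℤ) - k - 1 - i) := by
        intro i hi
        have hi' : i ≤ k := by simpa [Nat.lt_succ_iff] using hi
        have := nonneg hA hβ hB hx (m - 1 - i)
        rwa [show (((m - 1 - i : ℕ) : ℤ) - k) = (m : ℤ) - k - 1 - i by omega] at this
      have hs : ∀ i ∈ Finset.range (k + 1), x ((m : ℤ) - k - 1 - i) ≤ C := by
        intro i hi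
        have hi' : i ≤ k := by simpa [Nat.lt_succ_iff] using hi
        have := ih (m - 1 - i) (by omega)
        rwa [show (((m - 1 - i : ℕ) : ℤ) - k) = (m : ℤ) - k - 1 - i by omega] at this
      have hden : 0 ≤ ∑ i ∈ Finset.range (k + 1), B i * x ((m : ℤ) - k - 1 - i) :=
        Finset.sum_nonneg fun i hi =>
          mul_nonneg (hB i (by simpa [Nat.lt_succ_iff] using hi)) (hs0 i hi)
      rw [div_le_iff₀ (by linarith)]
      calc ∑ i ∈ Finset.range (k + 1), β i * x ((m : ℤ) - k - 1 - i)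
          ≤ ∑ i ∈ Finset.range (k + 1), β i * C := Finset.sum_le_sum fun i hi =>
            mul_le_mul_of_nonneg_left (hs i hi) (hβ i (by simpa [Nat.lt_succ_iff] using hi))
        _ = C * A := by rw [← Finset.sum_mul, ← hsum, mul_comm]
        _ ≤ _ := by nlinarith

lemma stable (hA : 0 < A) (hβ : ∀ i ≤ k, 0 ≤ β i) (hB : ∀ i ≤ k, 0 ≤ B i)
    (hsum : A = ∑ i ∈ Finset.range (k + 1), β i) : Stable k A β B := by
  intro ε hε
  refine ⟨ε / 2, by linarith, fun x hx hδ n hn => ?_⟩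
  have := bound hA hβ hB hsum hx (C := ε / 2) (by linarith)
    (fun n h1 h2 => (hδ n h1 h2).le) (n + k).toNat
  rw [Int.toNat_of_nonneg (by omega), add_sub_cancel_right] at this
  linarith

lemma attract (hA : 0 < A) (hβ : ∀ i ≤ k, 0 ≤ β i) (hB : ∀ i ≤ k, 0 ≤ B i)
    (hsum : A = ∑ i ∈ Finset.range (k + 1), β i)
    {j : ℕ} (hj : j ≤ k) (hBj : 0 < B j) (hg : Nat.setGcd (shifts k β) ∣ j + 1)
    (hx : IsSolution k A β B x) : Tendsto x atTop (𝓝 0) := by
  have hnn := nonneg hA hβ hB hx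
  -- a bound
  obtain ⟨C, hC0, hC⟩ : ∃ C : ℝ, 0 ≤ C ∧ ∀ n : ℤ, -k ≤ n → n ≤ 0 → x n ≤ C := by
    refine ⟨∑ n ∈ Finset.Icc (-(k : ℤ)) 0, |x n|, Finset.sum_nonneg fun _ _ => abs_nonneg _, ?_⟩
    intro n h1 h2
    exact (le_abs_self _).trans (Finset.single_le_sum (f := fun n => |x n|)
      (fun _ _ => abs_nonneg _) (Finset.mem_Icc.mpr ⟨h1, h2⟩))
  have hb := bound hA hβ hB hsum hx hC0 hC
  have hlim := conv (y := fun m : ℕ => x ((m : ℤ) - k)) hA hβ hB hsum hj hBj hg hnn hb (by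
    intro m hm
    have hr := hx.2 ((m : ℤ) - k - 1) (by omega)
    rw [sub_add_cancel] at hr
    have hcast : ∀ i ∈ Finset.range (k + 1),
        x (((m - 1 - i : ℕ) : ℤ) - k) = x ((m : ℤ) - k - 1 - i) := by
      intro i hi
      have hi' : i ≤ k := by simpa [Nat.lt_succ_iff] using hi
      congr 1; omega
    have e1 : ∑ i ∈ Finset.range (k + 1), B i * x (((m - 1 - i : ℕ) : ℤ) - k) =
        ∑ i ∈ Finset.range (k + 1), B i * x ((m : ℤ) - k - 1 - i) :=
      Finset.sum_congr rfl fun i hi => by rw [hcast i hi]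
    have e2 : ∑ i ∈ Finset.range (k + 1), β i * x (((m - 1 - i : ℕ) : ℤ) - k) =
        ∑ i ∈ Finset.range (k + 1), β i * x ((m : ℤ) - k - 1 - i) :=
      Finset.sum_congr rfl fun i hi => by rw [hcast i hi]
    simp only [e1, e2]
    have hden : 0 ≤ ∑ i ∈ Finset.range (k + 1), B i * x ((m : ℤ) - k - 1 - i) := by
      rw [← e1]
      exact Finset.sum_nonneg fun i hi =>
        mul_nonneg (hB i (by simpa [Nat.lt_succ_iff] using hi)) (hnn _)
    rw [hr]
    field_simp)
  -- transfer to integers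
  rw [tendsto_atTop'] at hlim ⊢
  intro s hs
  obtain ⟨a, ha⟩ := hlim s hs
  refine ⟨a, fun b hb => ?_⟩
  have := ha (b + k).toNat (by omega)
  simpa [Int.toNat_of_nonneg (show 0 ≤ b + k by omega)] using this

end basic

/-- If no `j` with `B j > 0` has `g ∣ j + 1`, then there is a solution of prime period `g`. -/
lemma periodic {k : ℕ} {A : ℝ} {β B : ℕ → ℝ} (hA : 0 < A) (hβ : ∀ i ≤ k, 0 ≤ β i)
    (hB : ∀ i ≤ k, 0 ≤ B i)
    (hsum : A = ∑ i ∈ Finset.range (k + 1), β i)
    (hBs : 0 < ∑ i ∈ Finset.range (k + 1), B i)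
    (hno : ∀ j ≤ k, 0 < B j → ¬ Nat.setGcd (shifts k β) ∣ j + 1) :
    ∃ (x : ℤ → ℝ) (p : ℕ), IsSolution k A β B x ∧ 2 ≤ p ∧ HasPrimePeriod k x p := by
  set g := Nat.setGcd (shifts k β) with hg
  have hg0 : g ≠ 0 := by
    intro h
    rw [hg, Nat.setGcd_eq_zero_iff] at h
    have : ∑ i ∈ Finset.range (k + 1), β i = 0 := by
      apply Finset.sum_eq_zero
      intro i hi
      have hi' : i ≤ k := by simpa [Nat.lt_succ_iff] using hi
      by_contra hne
      have := h ⟨i, hi', lt_of_le_of_ne (hβ i hi') (Ne.symm hne), rfl⟩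
      simp at this
    linarith
  have hg1 : g ≠ 1 := by
    intro h
    obtain ⟨i, hi, hBi⟩ := Finset.exists_lt_of_sum_lt (f := fun _ => (0 : ℝ)) (g := B)
      (s := Finset.range (k + 1)) (by simpa using hBs)
    exact hno i (by simpa [Nat.lt_succ_iff] using hi) hBi (by rw [h]; exact one_dvd _)
  have hdvd : ∀ i ≤ k, 0 < β i → g ∣ i + 1 := fun i hi hβi =>
    Nat.setGcd_dvd_of_mem ⟨i, hi, hβi, rfl⟩
  refine ⟨fun n => if (g : ℤ) ∣ n then 1 else 0, g, ⟨?_, ?_⟩, by omega, ⟨⟨by omega, ?_⟩, ?_⟩⟩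
  · intro n _ _
    simp only
    split_ifs <;> norm_num
  · intro n _
    simp only
    by_cases hn : (g : ℤ) ∣ n + 1
    · have h1 : ∀ i ∈ Finset.range (k + 1),
          β i * (if (g : ℤ) ∣ n - i then (1 : ℝ) else 0) = β i := by
        intro i hi
        have hi' : i ≤ k := by simpa [Nat.lt_succ_iff] using hi
        rcases (hβ i hi').lt_or_eq with h | h
        · have : (g : ℤ) ∣ n - i := by
            have h2 : (g : ℤ) ∣ ((i + 1 : ℕ) : ℤ) := Int.natCast_dvd_natCast.mpr (hdvd i hi' h)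
            have h3 := dvd_sub hn h2
            rwa [show n + 1 - ((i + 1 : ℕ) : ℤ) = n - i by push_cast; ring] at h3
          rw [if_pos this, mul_one]
        · rw [← h, zero_mul]
      have h2 : ∀ i ∈ Finset.range (k + 1),
          B i * (if (g : ℤ) ∣ n - i then (1 : ℝ) else 0) = 0 := by
        intro i hi
        have hi' : i ≤ k := by simpa [Nat.lt_succ_iff] using hi
        rcases (hB i hi').lt_or_eq with h | h
        · have : ¬ (g : ℤ) ∣ n - i := by
            intro h3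
            have h4 := dvd_sub hn h3
            rw [show n + 1 - (n - i) = ((i + 1 : ℕ) : ℤ) by push_cast; ring] at h4
            exact hno i hi' h (Int.natCast_dvd_natCast.mp h4)
          rw [if_neg this, mul_zero]
        · rw [← h, zero_mul]
      rw [if_pos hn, Finset.sum_congr rfl h1, Finset.sum_congr rfl h2, ← hsum]
      simp [hA.ne']
    · have h1 : ∀ i ∈ Finset.range (k + 1),
          β i * (if (g : ℤ) ∣ n - i then (1 : ℝ) else 0) = 0 := by
        intro i hi
        have hi' : i ≤ k := by simpa [Nat.lt_succ_iff] using hi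
        rcases (hβ i hi').lt_or_eq with h | h
        · have : ¬ (g : ℤ) ∣ n - i := by
            intro h3
            have h2 : (g : ℤ) ∣ ((i + 1 : ℕ) : ℤ) := Int.natCast_dvd_natCast.mpr (hdvd i hi' h)
            have h4 := dvd_add h3 h2
            rw [show n - i + ((i + 1 : ℕ) : ℤ) = n + 1 by push_cast; ring] at h4
            exact hn h4
          rw [if_neg this, mul_zero]
        · rw [← h, zero_mul]
      rw [if_neg hn, Finset.sum_congr rfl h1]
      simp
  · intro n _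
    simp only [dvd_add_self_right]
  · rintro q ⟨hq1, hq⟩
    have := hq 0 (by omega)
    simp only [zero_add, dvd_zero, if_true] at this
    have hdq : (g : ℤ) ∣ q := by
      by_contra h
      rw [if_neg h] at this
      exact zero_ne_one this
    exact Nat.le_of_dvd (by omega) (Int.natCast_dvd_natCast.mp hdq)

/-- Q1: if `A = ∑ β i` and the recurrence has no solution of prime period `p ≥ 2`, then the zero
equilibrium is globally asymptotically stable.  Moreover (second part) the zero equilibrium is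
globally asymptotically stable as soon as some `j` with `B j > 0` is such that `j + 1` is a
multiple of the greatest common divisor of all `i + 1` with `β i > 0`, and otherwise there is a
solution of prime period `p ≥ 2`. -/
theorem result (k : ℕ) (A : ℝ) (β B : ℕ → ℝ) (hA : 0 < A)
    (hβ : ∀ i ≤ k, 0 ≤ β i) (hB : ∀ i ≤ k, 0 ≤ B i)
    (_hβs : 0 < ∑ i ∈ Finset.range (k + 1), β i)
    (hBs : 0 < ∑ i ∈ Finset.range (k + 1), B i)
    (hsum : A = ∑ i ∈ Finset.range (k + 1), β i) :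
    ((¬ ∃ (x : ℤ → ℝ) (p : ℕ), IsSolution k A β B x ∧ 2 ≤ p ∧ HasPrimePeriod k x p) →
      GloballyAsymptoticallyStable k A β B) ∧
    ((∃ j ≤ k, 0 < B j ∧ Nat.setGcd (shifts k β) ∣ j + 1) →
      GloballyAsymptoticallyStable k A β B) ∧
    ((¬ ∃ j ≤ k, 0 < B j ∧ Nat.setGcd (shifts k β) ∣ j + 1) →
      ∃ (x : ℤ → ℝ) (p : ℕ), IsSolution k A β B x ∧ 2 ≤ p ∧ HasPrimePeriod k x p) := by
  have h1 : (∃ j ≤ k, 0 < B j ∧ Nat.setGcd (shifts k β) ∣ j + 1) →
      GloballyAsymptoticallyStable k A β B := by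
    rintro ⟨j, hj, hBj, hg⟩
    exact ⟨stable hA hβ hB hsum, fun x hx => attract hA hβ hB hsum hj hBj hg hx⟩
  have h2 : (¬ ∃ j ≤ k, 0 < B j ∧ Nat.setGcd (shifts k β) ∣ j + 1) →
      ∃ (x : ℤ → ℝ) (p : ℕ), IsSolution k A β B x ∧ 2 ≤ p ∧ HasPrimePeriod k x p := by
    intro h
    refine periodic hA hβ hB hsum hBs ?_
    intro j hj hBj hg
    exact h ⟨j, hj, hBj, hg⟩
  exact ⟨fun h => h1 (by_contra fun h3 => h (h2 h3)), h1, h2⟩

end Pool.Agent.Results.MP_2e7467_an.GlobalStability
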